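import Pool.Agent.Lib.MP_37c7bf_co_h82dm.Star

/-!
# One machine for all dense graphs: the asymptotic bounds
-/

set_option autoImplicit false

namespace Pool.Agent.Lib.MP_37c7bf_co_h91u

open Function Pool.Agent.MP_37c7bf_co_Dense Pool.Agent.Lib.MP_37c7bf_co_h77dm
  Pool.Agent.Lib.MP_37c7bf_co_h82dm

/-- The level. -/
def lv (n : ℕ) : ℕ := Nat.log 2 (Nat.log 2 n) / 10

/-- The bound for the number of vertices of the kernel. -/
def kb (T : ℕ) : ℕ :=
  T + 5 * (T.choose 3 * T.choose 3) + 2 * (T.choose 3 * T) + 7 * T.choose 3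

/-- Few independent vertices of degree less than `n / 2 ^ l`: among any `2 ^ (l + 17)` vertices some
four have ten common neighbours. -/
theorem star_of_few' {n l : ℕ} {G : SimpleGraph (Fin n)}
    (hn : (4 * 2 ^ l + 1) * ((4 * (2 ^ l + 1)).choose 4 * 9) < n)
    (h : ∀ S : Finset (Fin n), G.IsIndepSet S →
      (∀ v ∈ S, 2 ^ l * (G.neighborSet v).ncard < n) → S.card ≤ l) : Star G (2 ^ (l + 17)) := by
  classical
  intro U hU
  have hsplit : (U.filter fun u => 2 ^ l * (G.neighborSet u).ncard < n).card +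
      (U.filter fun u => ¬ 2 ^ l * (G.neighborSet u).ncard < n).card = U.card :=
    Finset.card_filter_add_card_filter_not _
  have hpow : 4 * (2 ^ l + 1) + 2 ^ (14 + (l + 1)) ≤ 2 ^ (l + 17) := by
    have h1 : 1 ≤ 2 ^ l := Nat.one_le_two_pow
    have h2 : 2 ^ (14 + (l + 1)) = 2 ^ 15 * 2 ^ l := by rw [← pow_add]; congr 1; omega
    have h3 : 2 ^ (l + 17) = 2 ^ 17 * 2 ^ l := by rw [← pow_add]; congr 1; omega
    rw [h2, h3]
    omega
  by_cases hL : 2 ^ (14 + (l + 1)) ≤ (U.filter fun u => 2 ^ l * (G.neighborSet u).ncard < n).card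
  · rcases ramsey G (14 + (l + 1)) 14 (l + 1) rfl _ hL with ⟨A, hA, hAc, hA2⟩ | ⟨B, hB, hBc, hB2⟩
    · obtain ⟨Y, hYA, hY⟩ := Finset.exists_subset_card_eq (s := A) (n := 10) (by omega)
      have hT : (A \ Y).card = 4 := by
        rw [Finset.card_sdiff_of_subset hYA]; omega
      obtain ⟨s, hs, hs2⟩ := seed_of_sets (G := G) hY hT (fun y hy t ht => by
        have ht' := Finset.mem_sdiff.mp ht
        exact hA2 y (hYA hy) t ht'.1 (fun h => ht'.2 (h ▸ hy)))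
      refine ⟨s, hs, fun j hj => ?_⟩
      exact Finset.filter_subset _ _ (hA (Finset.mem_sdiff.mp (hs2 j hj)).1)
    · exfalso
      have := h B (fun x hx y hy _ => hB2 x hx y hy)
        (fun x hx => (Finset.mem_filter.mp (hB hx)).2)
      omega
  · have hH : 4 * (2 ^ l + 1) ≤ (U.filter fun u => ¬ 2 ^ l * (G.neighborSet u).ncard < n).card := by
      omega
    obtain ⟨W, hWU, hW⟩ := Finset.exists_subset_card_eq hH
    obtain ⟨Y, T, hY, hT, -, hTW, hadj⟩ := exists_Km4' (G := G) (2 ^ l) 9 Finset.univ W hW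
      (by rw [Finset.card_univ, Fintype.card_fin]; exact hn) (fun v hv => by
        have h1 := (Finset.mem_filter.mp (hWU hv)).2
        rw [not_lt] at h1
        have h2 : (G.neighborSet v).ncard = (Finset.univ.filter fun w => G.Adj v w).card := by
          rw [← Set.ncard_coe_finset]
          congr 1
          ext w
          simp
        rw [h2] at h1
        rw [Finset.card_univ, Fintype.card_fin]
        refine h1.trans (Nat.mul_le_mul_right _ (Nat.le_succ _)))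
    obtain ⟨Y', hY'Y, hY'⟩ := Finset.exists_subset_card_eq (s := Y) (n := 10) (by omega)
    obtain ⟨s, hs, hs2⟩ := seed_of_sets (G := G) hY' hT (fun y hy t ht => hadj y (hY'Y hy) t ht)
    refine ⟨s, hs, fun j hj => ?_⟩
    exact Finset.filter_subset _ _ (hWU (hTW (hs2 j hj)))

theorem le_lv (a : ℕ) : ∃ n₀, ∀ n > n₀, a ≤ lv n := by
  refine ⟨2 ^ 2 ^ (10 * a), fun n hn => ?_⟩
  have h1 : 2 ^ (10 * a) ≤ Nat.log 2 n := Nat.le_log_of_pow_le (by norm_num) hn.le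
  have h2 : 10 * a ≤ Nat.log 2 (Nat.log 2 n) := Nat.le_log_of_pow_le (by norm_num) h1
  unfold lv
  omega

theorem choose_three_le (T : ℕ) : 6 * T.choose 3 ≤ T ^ 3 := by
  have h1 := Nat.descFactorial_eq_factorial_mul_choose T 3
  have h2 := Nat.descFactorial_le_pow T 3
  have h3 : Nat.factorial 3 = 6 := rfl
  rw [h3] at h1
  omega

theorem kb_le {T : ℕ} (hT : 2 ≤ T) : kb T ≤ T ^ 6 := by
  have h1 := choose_three_le T
  set c := T.choose 3 with hc
  have h2 : 36 * (c * c) ≤ T ^ 6 := by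
    calc 36 * (c * c) = (6 * c) * (6 * c) := by ring
      _ ≤ T ^ 3 * T ^ 3 := Nat.mul_le_mul h1 h1
      _ = T ^ 6 := by ring
  have h3 : 6 * (c * T) ≤ T ^ 4 := by
    calc 6 * (c * T) = (6 * c) * T := by ring
      _ ≤ T ^ 3 * T := Nat.mul_le_mul_right _ h1
      _ = T ^ 4 := by ring
  have h4 : 4 * T ^ 4 ≤ T ^ 6 := by
    calc 4 * T ^ 4 = (2 * 2) * T ^ 4 := by ring
      _ ≤ (T * T) * T ^ 4 := Nat.mul_le_mul_right _ (Nat.mul_le_mul hT hT)
      _ = T ^ 6 := by ring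
  have h5 : 2 * T ^ 3 ≤ T ^ 4 := by
    calc 2 * T ^ 3 ≤ T * T ^ 3 := Nat.mul_le_mul_right _ hT
      _ = T ^ 4 := by ring
  have h6 : 4 * T ≤ T ^ 3 := by
    calc 4 * T = (2 * 2) * T := by ring
      _ ≤ (T * T) * T := Nat.mul_le_mul_right _ (Nat.mul_le_mul hT hT)
      _ = T ^ 3 := by ring
  unfold kb
  rw [← hc]
  omega

theorem le_kb (T : ℕ) : T ≤ kb T := by
  unfold kb
  omega

theorem main_aux {l : ℕ} (hl : 40 ≤ l) :
    (l + 17) * (144 * (2 ^ (l + 17)) ^ 6) < 2 ^ (10 * l) := by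
  have h1 : l + 17 ≤ 2 ^ (l + 1) := by
    have := Nat.lt_two_pow_self (n := l)
    rw [pow_succ]
    omega
  have h2 : (l + 17) * (144 * (2 ^ (l + 17)) ^ 6) ≤ 2 ^ (l + 1) * (2 ^ 8 * (2 ^ (l + 17)) ^ 6) :=
    Nat.mul_le_mul h1 (Nat.mul_le_mul_right _ (by norm_num))
  have h3 : 2 ^ (l + 1) * (2 ^ 8 * (2 ^ (l + 17)) ^ 6) = 2 ^ (7 * l + 111) := by
    rw [← pow_mul, ← pow_add, ← pow_add]
    congr 1
    ring
  have h4 : 2 ^ (7 * l + 111) < 2 ^ (10 * l) := Nat.pow_lt_pow_right (by norm_num) (by omega)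
  rw [h3] at h2
  exact lt_of_le_of_lt h2 h4

/-- The main bound. -/
theorem main_lt {n l : ℕ} (hl : 40 ≤ l) (hn : 2 ^ (10 * l) ≤ Nat.log 2 n) :
    (2 ^ (l + 17)) ^ (144 * (2 ^ (l + 17)) ^ 6) < n := by
  have h0 : n ≠ 0 := by
    rintro rfl
    rw [Nat.log_zero_right] at hn
    have : 0 < 2 ^ (10 * l) := by positivity
    omega
  rw [← pow_mul]
  refine lt_of_lt_of_le ?_ (Nat.pow_log_le_self 2 h0)
  refine Nat.pow_lt_pow_right (by norm_num) ?_
  refine lt_of_lt_of_le ?_ hn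
  exact main_aux hl

theorem pow_aux {K T : ℕ} (h : K ≤ T ^ 6) (hT : 1 ≤ T) :
    (K ^ 8) ^ (3 * K) ≤ T ^ (144 * T ^ 6) := by
  have h1 : (K ^ 8) ^ (3 * K) = K ^ (8 * (3 * K)) := (pow_mul K 8 (3 * K)).symm
  have h2 : K ^ (8 * (3 * K)) ≤ (T ^ 6) ^ (8 * (3 * K)) := Nat.pow_le_pow_left h _
  have h3 : (T ^ 6) ^ (8 * (3 * K)) = T ^ (6 * (8 * (3 * K))) := (pow_mul T 6 _).symm
  have h4 : T ^ (6 * (8 * (3 * K))) ≤ T ^ (144 * T ^ 6) := by
    refine Nat.pow_le_pow_right hT ?_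
    omega
  rw [h1]
  exact h2.trans (h3.le.trans h4)

theorem bounds_aux {X T n : ℕ} (hX : 1 ≤ X) (hXT : 16 * X ≤ T)
    (hmain : T ^ (144 * T ^ 6) < n) :
    (4 * X + 1) * ((4 * (X + 1)).choose 4 * 9) < n ∧ T < n ∧ (kb T ^ 8) ^ (3 * kb T) < n := by
  have hT2 : 9 ≤ T := by omega
  have hT1 : 1 ≤ T := by omega
  have h6 : 1 ≤ T ^ 6 := Nat.one_le_pow _ _ hT1
  have hT6 : 1 ≤ 144 * T ^ 6 := by omega
  refine ⟨?_, ?_, ?_⟩
  · have h1 : 4 * X + 1 ≤ T := by omega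
    have h2 : (4 * (X + 1)).choose 4 ≤ T ^ 4 :=
      (Nat.choose_le_pow _ _).trans (Nat.pow_le_pow_left (by omega) 4)
    have h3 : T ^ 6 < n :=
      lt_of_le_of_lt (Nat.pow_le_pow_right hT1 (by omega)) hmain
    have h4 : (4 * X + 1) * ((4 * (X + 1)).choose 4 * 9) ≤ T * (T ^ 4 * T) :=
      Nat.mul_le_mul h1 (Nat.mul_le_mul h2 hT2)
    have h5 : T * (T ^ 4 * T) = T ^ 6 := by ring
    rw [h5] at h4
    exact lt_of_le_of_lt h4 h3
  · refine lt_of_le_of_lt ?_ hmain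
    have h1 : T ^ 1 ≤ T ^ (144 * T ^ 6) := Nat.pow_le_pow_right hT1 hT6
    rwa [pow_one] at h1
  · exact lt_of_le_of_lt (pow_aux (kb_le (T := T) (by omega)) hT1) hmain

/-- **The bounds for the machine.** -/
theorem exists_bound : ∃ n₀, ∀ n > n₀,
    (4 * 2 ^ lv n + 1) * ((4 * (2 ^ lv n + 1)).choose 4 * 9) < n ∧ 2 ^ (lv n + 17) < n ∧
      (kb (2 ^ (lv n + 17)) ^ 8) ^ (3 * kb (2 ^ (lv n + 17))) < n := by
  obtain ⟨n₀, hn₀⟩ := le_lv 40
  refine ⟨n₀, fun n hn => ?_⟩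
  have hl := hn₀ n hn
  have hlog : 2 ^ (10 * lv n) ≤ Nat.log 2 n := by
    have h1 : 10 * lv n ≤ Nat.log 2 (Nat.log 2 n) := by
      unfold lv
      omega
    have h2 : Nat.log 2 n ≠ 0 := by
      intro h
      have h3 : lv n = 0 := by unfold lv; rw [h]; rfl
      omega
    exact (Nat.pow_le_pow_right (by norm_num) h1).trans (Nat.pow_log_le_self 2 h2)
  have hmain := main_lt hl hlog
  generalize lv n = l at *
  have hTl : 2 ^ 17 * 2 ^ l = 2 ^ (l + 17) := by rw [← pow_add]; congr 1; omega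
  have hl1 : 1 ≤ 2 ^ l := Nat.one_le_two_pow
  refine bounds_aux (X := 2 ^ l) (T := 2 ^ (l + 17)) hl1 ?_ hmain
  rw [← hTl]
  exact Nat.mul_le_mul_right _ (by norm_num)

/-- **Uniform version**: if every independent set of vertices of degree less than `n / 2 ^ l`,
`l = lv n`, has at most `l` elements, then `G` has the star property with a small `T`. -/
theorem star_uniform : ∃ n₀, ∀ n > n₀, ∀ G : SimpleGraph (Fin n),
    (∀ S : Finset (Fin n), G.IsIndepSet S →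
      (∀ v ∈ S, 2 ^ lv n * (G.neighborSet v).ncard < n) → S.card ≤ lv n) →
    ∃ T, Star G T ∧ T < n ∧ (kb T ^ 8) ^ (3 * kb T) < n := by
  obtain ⟨n₀, hn₀⟩ := exists_bound
  refine ⟨n₀, fun n hn G h => ?_⟩
  obtain ⟨h1, h2, h3⟩ := hn₀ n hn
  exact ⟨_, star_of_few' h1 h, h2, h3⟩

end Pool.Agent.Lib.MP_37c7bf_co_h91u
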